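import Pool.Agent.H68.L.R_seed8.W313.BMX.Stm

/-!
# Hilbert symbols at an odd prime
-/

set_option autoImplicit false

namespace Pool.Agent.W335.BMX

open Polynomial Pool.Agent.W313.BMX

variable {p : ℕ} [hp : Fact p.Prime]

theorem two_not_dvd (hp2 : p ≠ 2) : ¬ (p : ℤ) ∣ 2 := by
  intro h
  have h1 : p ∣ 2 := by exact_mod_cast h
  exact hp2 ((Nat.prime_dvd_prime_iff_eq hp.out Nat.prime_two).mp h1)

theorem toZMod_eq_zero_iff (x : ℤ_[p]) : PadicInt.toZMod x = 0 ↔ (p : ℤ_[p]) ∣ x := by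
  rw [← RingHom.mem_ker, PadicInt.ker_toZMod, PadicInt.maximalIdeal_eq_span_p,
    Ideal.mem_span_singleton]

theorem toZMod_int (a : ℤ) : PadicInt.toZMod (a : ℤ_[p]) = (a : ZMod p) := map_intCast _ a

theorem cast_ne_zero {a : ℤ} (ha : ¬ (p : ℤ) ∣ a) : (a : ZMod p) ≠ 0 := by
  rwa [Ne, ZMod.intCast_zmod_eq_zero_iff_dvd]

/-- A unit whose residue is a square is a square. -/
theorem sq_of_residue (hp2 : p ≠ 2) (u : ℤ_[p]) (a : ZMod p) (ha : a ≠ 0)
    (h : PadicInt.toZMod u = a ^ 2) : IsSquare u := by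
  obtain ⟨b, rfl⟩ : ∃ b : ℤ, (b : ZMod p) = a := ZMod.intCast_surjective a
  have hb : ¬ (p : ℤ) ∣ b := by rwa [Ne, ZMod.intCast_zmod_eq_zero_iff_dvd] at ha
  have h2b : ¬ (p : ℤ) ∣ 2 * b := fun h =>
    (Int.Prime.dvd_mul' hp.out h).elim (two_not_dvd hp2) hb
  set F : ℤ_[p][X] := X ^ 2 - C u with hF
  have hder : ‖F.derivative.aeval ((b : ℤ) : ℤ_[p])‖ = 1 := by
    have e : F.derivative.aeval ((b : ℤ) : ℤ_[p]) = ((2 * b : ℤ) : ℤ_[p]) := by
      simp [hF]
      left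
      norm_num
    rw [e]
    refine le_antisymm (PadicInt.norm_le_one _) ?_
    by_contra hc
    rw [not_le, PadicInt.norm_int_lt_one_iff_dvd] at hc
    exact h2b hc
  have hval : ‖F.aeval ((b : ℤ) : ℤ_[p])‖ < 1 := by
    rw [PadicInt.norm_lt_one_iff_dvd, ← toZMod_eq_zero_iff]
    have e : F.aeval ((b : ℤ) : ℤ_[p]) = ((b : ℤ) : ℤ_[p]) ^ 2 - u := by simp [hF]
    rw [e, map_sub, map_pow, toZMod_int, h, sub_self]
  obtain ⟨z, hz, -⟩ := hensels_lemma (p := p) (F := F) (a := ((b : ℤ) : ℤ_[p]))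
    (by rw [hder]; simpa using hval)
  refine ⟨z, ?_⟩
  have e : F.aeval z = z ^ 2 - u := by simp [hF]
  rw [e, sub_eq_zero] at hz
  rw [← hz, sq]

theorem sq_of_residue' (hp2 : p ≠ 2) (a : ℤ) (ha : ¬ (p : ℤ) ∣ a) (h : legendreSym p a = 1) :
    IsSquare ((a : ℤ) : ℤ_[p]) := by
  rw [legendreSym.eq_one_iff p (cast_ne_zero ha)] at h
  obtain ⟨b, hb⟩ := h
  refine sq_of_residue hp2 _ b ?_ ?_
  · rintro rfl
    rw [mul_zero] at hb
    exact cast_ne_zero ha hb
  · rw [toZMod_int, hb, sq]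

theorem isSquare_coe {u : ℤ_[p]} (h : IsSquare u) : IsSquare (u : ℚ_[p]) := by
  obtain ⟨r, hr⟩ := h
  exact ⟨r, by rw [hr]; push_cast; rfl⟩

/-- squares -/
theorem odd1 : S_ODD1 := by
  intro p _ hp2 m n hm hn hmn
  have hmn' : ¬ (p : ℤ) ∣ m * n := fun h => (Int.Prime.dvd_mul' (Fact.out) h).elim hm hn
  have h1 : legendreSym p (m * n) = 1 := by
    rw [legendreSym.mul, hmn, ← sq]
    exact legendreSym.sq_one p (cast_ne_zero hn)
  have h2 := isSquare_coe (sq_of_residue' hp2 (m * n) hmn' h1)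
  simpa using h2

/-- units -/
theorem odd2 : S_ODD2 := by
  intro p hp hp2 m e hm he
  have hm0 := cast_ne_zero hm
  have he0 := cast_ne_zero he
  have hd1 : degree (C (m : ZMod p) * X ^ 2) = 2 := degree_C_mul_X_pow 2 hm0
  have hd2 : degree (C (e : ZMod p) * X ^ 2 - C 1) = 2 := by
    rw [degree_sub_eq_left_of_degree_lt]
    · exact degree_C_mul_X_pow 2 he0
    · rw [degree_C_mul_X_pow 2 he0, degree_C one_ne_zero]
      norm_num
  obtain ⟨a, b, hab⟩ := FiniteField.exists_root_sum_quadratic hd1 hd2 (by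
    rw [ZMod.card]
    exact (Nat.Prime.eq_two_or_odd hp.out).resolve_left hp2)
  simp only [eval_mul, eval_C, eval_pow, eval_X, eval_sub] at hab
  obtain ⟨x, rfl⟩ : ∃ x : ℤ, (x : ZMod p) = a := ZMod.intCast_surjective a
  obtain ⟨y, rfl⟩ : ∃ y : ℤ, (y : ZMod p) = b := ZMod.intCast_surjective b
  have hr : PadicInt.toZMod ((m * x ^ 2 + e * y ^ 2 : ℤ) : ℤ_[p]) = 1 ^ 2 := by
    rw [toZMod_int]
    push_cast
    linear_combination hab
  obtain ⟨z, hz⟩ := isSquare_coe (sq_of_residue hp2 _ 1 one_ne_zero hr)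
  refine ⟨x, y, z, ?_, ?_⟩
  · by_contra hc
    push Not at hc
    obtain ⟨h1, h2, -⟩ := hc
    have h1' : x = 0 := by exact_mod_cast h1
    have h2' : y = 0 := by exact_mod_cast h2
    rw [h1', h2'] at hr
    simp at hr
  · rw [sq, ← hz]
    push_cast
    ring

theorem exists_scale (x y z : ℚ_[p]) (h : x ≠ 0 ∨ y ≠ 0 ∨ z ≠ 0) :
    ∃ (c : ℚ_[p]) (x' y' z' : ℤ_[p]), c ≠ 0 ∧ x = c * x' ∧ y = c * y' ∧ z = c * z' ∧
      (x' = 1 ∨ y' = 1 ∨ z' = 1) := by
  obtain ⟨i, hi⟩ := Finite.exists_max (fun i : Fin 3 => ‖(![x, y, z] : Fin 3 → ℚ_[p]) i‖)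
  set c := (![x, y, z] : Fin 3 → ℚ_[p]) i with hc
  have hx : ‖x‖ ≤ ‖c‖ := hi 0
  have hy : ‖y‖ ≤ ‖c‖ := hi 1
  have hz : ‖z‖ ≤ ‖c‖ := hi 2
  have hc0 : c ≠ 0 := by
    intro h0
    rw [h0, norm_zero] at hx hy hz
    rcases h with h | h | h
    · exact h (norm_le_zero_iff.mp hx)
    · exact h (norm_le_zero_iff.mp hy)
    · exact h (norm_le_zero_iff.mp hz)
  have hn : 0 < ‖c‖ := norm_pos_iff.mpr hc0
  refine ⟨c, ⟨x / c, ?_⟩, ⟨y / c, ?_⟩, ⟨z / c, ?_⟩, hc0, ?_, ?_, ?_, ?_⟩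
  · rw [norm_div]; exact div_le_one_of_le₀ hx hn.le
  · rw [norm_div]; exact div_le_one_of_le₀ hy hn.le
  · rw [norm_div]; exact div_le_one_of_le₀ hz hn.le
  · exact (mul_div_cancel₀ x hc0).symm
  · exact (mul_div_cancel₀ y hc0).symm
  · exact (mul_div_cancel₀ z hc0).symm
  · have hi3 : i = 0 ∨ i = 1 ∨ i = 2 := by fin_cases i <;> simp
    rcases hi3 with rfl | rfl | rfl
    · left
      apply Subtype.ext
      change x / c = 1
      exact div_self hc0
    · right; left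
      apply Subtype.ext
      change y / c = 1
      exact div_self hc0
    · right; right
      apply Subtype.ext
      change z / c = 1
      exact div_self hc0

/-- a unit and `p` times a unit -/
theorem odd3 : S_ODD3 := by
  intro p hp hp2 m e hm he
  constructor
  · rintro ⟨x, y, z, hne, hxyz⟩
    rw [legendreSym.eq_one_iff p (cast_ne_zero he)]
    by_contra hsq
    obtain ⟨c, x', y', z', hc, rfl, rfl, rfl, hone⟩ := exists_scale x y z hne
    have h1 : (z' : ℚ_[p]) ^ 2 = ((p : ℚ_[p]) * m) * (x' : ℚ_[p]) ^ 2 + e * (y' : ℚ_[p]) ^ 2 := by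
      have hc2 : c ^ 2 ≠ 0 := pow_ne_zero 2 hc
      apply mul_left_cancel₀ hc2
      push_cast at hxyz
      linear_combination hxyz
    have h2 : z' ^ 2 = ((p : ℤ_[p]) * m) * x' ^ 2 + e * y' ^ 2 := by
      apply PadicInt.ext
      push_cast
      exact h1
    have h3 := congrArg (PadicInt.toZMod (p := p)) h2
    simp only [map_pow, map_add, map_mul, map_natCast, toZMod_int, CharP.cast_eq_zero,
      zero_mul, zero_add] at h3
    have hY : PadicInt.toZMod y' = 0 := by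
      by_contra hY
      apply hsq
      refine ⟨PadicInt.toZMod z' / PadicInt.toZMod y', ?_⟩
      field_simp
      rw [h3]
    have hZ : PadicInt.toZMod z' = 0 := by
      rw [hY] at h3
      simpa using h3
    obtain ⟨y'', hy''⟩ := (toZMod_eq_zero_iff y').mp hY
    obtain ⟨z'', hz''⟩ := (toZMod_eq_zero_iff z').mp hZ
    have hp0 : (p : ℤ_[p]) ≠ 0 := by exact_mod_cast hp.out.ne_zero
    have h4 : (m : ℤ_[p]) * x' ^ 2 = p * (z'' ^ 2 - e * y'' ^ 2) := by
      apply mul_left_cancel₀ hp0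
      rw [hy'', hz''] at h2
      linear_combination -h2
    have h5 := congrArg (PadicInt.toZMod (p := p)) h4
    simp only [map_pow, map_mul, map_natCast, toZMod_int, CharP.cast_eq_zero,
      zero_mul] at h5
    have hX : PadicInt.toZMod x' = 0 := by
      rcases mul_eq_zero.mp h5 with h | h
      · exact absurd h (cast_ne_zero hm)
      · exact pow_eq_zero_iff (two_ne_zero) |>.mp h
    rcases hone with rfl | rfl | rfl
    · simp at hX
    · simp at hY
    · simp at hZ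
  · intro h
    obtain ⟨r, hr⟩ := isSquare_coe (sq_of_residue' hp2 e he h)
    refine ⟨0, 1, r, Or.inr (Or.inl one_ne_zero), ?_⟩
    rw [sq, ← hr]
    push_cast
    ring

end Pool.Agent.W335.BMX
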